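import Pool.Agent.helper63.TI.SpecA

/-!
# Row CYC: a weighted cycle
-/

set_option autoImplicit false

namespace Pool.Agent.TI

open Polynomial NumberField Pool.Agent.GJ Pool.Agent.TK Pool.Agent.TQ Pool.Agent.TFQ Pool.Agent.TD Pool.Agent.AQ
open Pool.Agent.FJ (VT Om chiO IsFrobO rf rs)
open scoped TensorProduct

noncomputable section

/-- the residue class of `j + 1` -/
def CYC_nx (n : ℕ) (j : Fin n) : ZMod (n + 1) := (((j : ℕ) + 1 : ℕ) : ZMod (n + 1))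

theorem CYC_inj (n : ℕ) : Function.Injective (CYC_nx n) := by
  intro a b h
  unfold CYC_nx at h
  rw [ZMod.natCast_eq_natCast_iff'] at h
  rw [Nat.mod_eq_of_lt (by omega), Nat.mod_eq_of_lt (by omega)] at h
  apply Fin.ext
  omega

theorem CYC_ne (n : ℕ) (j : Fin n) : CYC_nx n j ≠ 0 := by
  unfold CYC_nx
  rw [Ne, ZMod.natCast_eq_zero_iff]
  intro h
  have := Nat.le_of_dvd (by omega) h
  omega

theorem CYC_surj (n : ℕ) (x : ZMod (n + 1)) (hx : x ≠ 0) : ∃ j, CYC_nx n j = x := by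
  have h1 : x.val < n + 1 := ZMod.val_lt x
  have h2 : x.val ≠ 0 := fun h => hx ((ZMod.val_eq_zero x).mp h)
  refine ⟨⟨x.val - 1, by omega⟩, ?_⟩
  unfold CYC_nx
  have h3 : x.val - 1 + 1 = x.val := by omega
  show ((x.val - 1 + 1 : ℕ) : ZMod (n + 1)) = x
  rw [h3, ZMod.natCast_zmod_val]

theorem CYC_order (n p : ℕ) [Fact (n + 1).Prime] (hp0 : (p : ZMod (n + 1)) ≠ 0)
    (hgen : ∀ x y : ZMod (n + 1), x ≠ 0 → y ≠ 0 → ∃ k : ℕ, y = (p : ZMod (n + 1)) ^ k * x)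
    (k : ℕ) (hk0 : 0 < k) (hk : k < n) : (p : ZMod (n + 1)) ^ k ≠ 1 := by
  intro h
  have h1 : orderOf (Units.mk0 (p : ZMod (n + 1)) hp0) = Nat.card (ZMod (n + 1))ˣ := by
    refine orderOf_eq_card_of_forall_mem_powers fun y => ?_
    obtain ⟨k, hk⟩ := hgen 1 y one_ne_zero y.ne_zero
    refine ⟨k, ?_⟩
    apply Units.ext
    rw [Units.val_pow_eq_pow_val, Units.val_mk0, hk, mul_one]
  rw [Nat.card_eq_fintype_card, ZMod.card_units] at h1
  have h2 : Units.mk0 (p : ZMod (n + 1)) hp0 ^ k = 1 := by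
    apply Units.ext
    rw [Units.val_pow_eq_pow_val, Units.val_mk0, h, Units.val_one]
  have h3 := orderOf_le_of_pow_eq_one hk0 h2
  rw [h1] at h3
  omega

theorem CYC : CYC_stmt := by
  intro Ω U _ _ _ _ _ n p hm hp0 hgen v Φ hΦ
  classical
  have hF : Fact (n + 1).Prime := ⟨hm⟩
  have hn : 0 < n := by
    have := hm.two_le
    omega
  have step : ∀ j, ∃ (j' : Fin n) (d : Ω), d ≠ 0 ∧ CYC_nx n j' * (p : ZMod (n + 1)) = CYC_nx n j ∧
      Φ (v j) = d • v j' := by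
    intro j
    obtain ⟨j', hj'⟩ := CYC_surj n (CYC_nx n j * (p : ZMod (n + 1))⁻¹)
      (mul_ne_zero (CYC_ne n j) (inv_ne_zero hp0))
    have h1 : CYC_nx n j' * (p : ZMod (n + 1)) = CYC_nx n j := by
      rw [hj', inv_mul_cancel_right₀ hp0]
    obtain ⟨d, hd, hd'⟩ := hΦ j j' (by
      rw [Nat.cast_mul]
      exact h1)
    exact ⟨j', d, hd, h1, hd'⟩
  have iter : ∀ (k : ℕ) (j : Fin n), ∃ (j' : Fin n) (c : Ω), c ≠ 0 ∧
      CYC_nx n j' * (p : ZMod (n + 1)) ^ k = CYC_nx n j ∧ (Φ ^ k) (v j) = c • v j' := by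
    intro k j
    induction k with
    | zero =>
      refine ⟨j, 1, one_ne_zero, ?_, ?_⟩
      · rw [pow_zero, mul_one]
      · rw [pow_zero, one_smul]
        rfl
    | succ k ih =>
      obtain ⟨j1, c, hc, h1, h2⟩ := ih
      obtain ⟨j2, d, hd, h3, h4⟩ := step j1
      refine ⟨j2, c * d, mul_ne_zero hc hd, ?_, ?_⟩
      · rw [pow_succ', ← mul_assoc, h3, h1]
      · rw [pow_succ', Module.End.mul_apply, h2, map_smul, h4, smul_smul]
  obtain ⟨j0, hj0⟩ := CYC_surj n 1 one_ne_zero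
  obtain ⟨j1, κ, hκ, h1, h2⟩ := iter n j0
  have hpn : (p : ZMod (n + 1)) ^ n = 1 := ZMod.pow_card_sub_one_eq_one hp0
  rw [hpn, mul_one] at h1
  have h3 := CYC_inj n h1
  subst h3
  have coord : ∀ k, 0 < k → k < n → v.repr ((Φ ^ k) (v j1)) j1 = 0 := by
    intro k hk0 hk
    obtain ⟨j', c, hc, h4, h5⟩ := iter k j1
    rw [h5, map_smul, Finsupp.smul_apply, Module.Basis.repr_self, Finsupp.single_apply, if_neg,
      smul_zero]
    rintro rfl
    rw [hj0, one_mul] at h4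
    exact CYC_order n p hp0 hgen k hk0 hk h4
  have : NeZero n := ⟨hn.ne'⟩
  have : NeZero (n : Ω) := ⟨by exact_mod_cast hn.ne'⟩
  obtain ⟨α, hα⟩ := IsAlgClosed.exists_pow_nat_eq κ hn
  obtain ⟨ζ, hζ⟩ := HasEnoughRootsOfUnity.exists_primitiveRoot Ω n
  have hα0 : α ≠ 0 := by
    rintro rfl
    rw [zero_pow hn.ne'] at hα
    exact hκ hα.symm
  have hζ0 : ζ ≠ 0 := hζ.ne_zero hn.ne'
  have hξn : ∀ t : Fin n, (α * ζ ^ (t : ℕ)) ^ n = κ := by
    intro t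
    rw [mul_pow, hα, ← pow_mul, mul_comm (t : ℕ) n, pow_mul, hζ.pow_eq_one, one_pow, mul_one]
  have hξ0 : ∀ t : Fin n, α * ζ ^ (t : ℕ) ≠ 0 := fun t => mul_ne_zero hα0 (pow_ne_zero _ hζ0)
  have hξinj : Function.Injective fun t : Fin n => α * ζ ^ (t : ℕ) := by
    intro a b hab
    have h4 : ζ ^ (a : ℕ) = ζ ^ (b : ℕ) := mul_left_cancel₀ hα0 hab
    exact Fin.ext (hζ.pow_inj a.2 b.2 h4)
  have hu : ∀ t : Fin n, Φ (∑ k ∈ Finset.range n, ((α * ζ ^ (t : ℕ))⁻¹) ^ k • (Φ ^ k) (v j1)) =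
      (α * ζ ^ (t : ℕ)) • ∑ k ∈ Finset.range n, ((α * ζ ^ (t : ℕ))⁻¹) ^ k • (Φ ^ k) (v j1) := by
    intro t
    generalize hx : α * ζ ^ (t : ℕ) = x
    have hx0 : x ≠ 0 := hx ▸ hξ0 t
    have hxn : x ^ n = κ := hx ▸ hξn t
    have e1 : Φ (∑ k ∈ Finset.range n, (x⁻¹) ^ k • (Φ ^ k) (v j1)) =
        x • ∑ k ∈ Finset.range n, (x⁻¹) ^ (k + 1) • (Φ ^ (k + 1)) (v j1) := by
      rw [map_sum, Finset.smul_sum]
      refine Finset.sum_congr rfl fun k _ => ?_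
      rw [map_smul, smul_smul, pow_succ' x⁻¹ k, ← mul_assoc, mul_inv_cancel₀ hx0, one_mul,
        pow_succ' Φ k, Module.End.mul_apply]
    have e2 := Finset.sum_range_succ (fun k => (x⁻¹) ^ k • (Φ ^ k) (v j1)) n
    have e3 := Finset.sum_range_succ' (fun k => (x⁻¹) ^ k • (Φ ^ k) (v j1)) n
    have e4 : (x⁻¹) ^ n • (Φ ^ n) (v j1) = v j1 := by
      rw [h2, smul_smul, inv_pow, hxn, inv_mul_cancel₀ hκ, one_smul]
    have e5 : (x⁻¹) ^ 0 • (Φ ^ 0) (v j1) = v j1 := by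
      rw [pow_zero, pow_zero, one_smul]
      rfl
    rw [e2, e4, e5] at e3
    rw [e1, ← add_right_cancel e3]
  have hu0 : ∀ t : Fin n, (∑ k ∈ Finset.range n, ((α * ζ ^ (t : ℕ))⁻¹) ^ k • (Φ ^ k) (v j1)) ≠ 0 := by
    intro t h0
    have h4 := congrArg (fun w => v.repr w j1) h0
    simp only [map_sum, map_smul, Finsupp.coe_finsetSum, Finset.sum_apply, Finsupp.smul_apply,
      map_zero, Finsupp.coe_zero, Pi.zero_apply, smul_eq_mul] at h4
    rw [Finset.sum_eq_single_of_mem 0 (Finset.mem_range.mpr hn)] at h4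
    · rw [pow_zero, one_mul, pow_zero, Module.End.one_apply, Module.Basis.repr_self,
        Finsupp.single_eq_same] at h4
      exact one_ne_zero h4
    · intro k hk hk0
      rw [coord k (Nat.pos_of_ne_zero hk0) (Finset.mem_range.mp hk), mul_zero]
  have hli : LinearIndependent Ω fun t : Fin n =>
      ∑ k ∈ Finset.range n, ((α * ζ ^ (t : ℕ))⁻¹) ^ k • (Φ ^ k) (v j1) :=
    Module.End.eigenvectors_linearIndependent' Φ (fun t : Fin n => α * ζ ^ (t : ℕ)) hξinj _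
      fun t => ⟨Module.End.mem_eigenspace_iff.mpr (hu t), hu0 t⟩
  have hcard : Fintype.card (Fin n) = Module.finrank Ω U := (Module.finrank_eq_card_basis v).symm
  have : Nonempty (Fin n) := ⟨j1⟩
  refine ⟨κ, fun t => α * ζ ^ (t : ℕ), basisOfLinearIndependentOfCardEqFinrank hli hcard, hκ, hξinj,
    hξn, fun t => ?_⟩
  rw [coe_basisOfLinearIndependentOfCardEqFinrank]
  exact hu t

end

end Pool.Agent.TI
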